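import Pool.Agent.Helper35.MS.StF

set_option autoImplicit false

namespace Helper31.MS

open Helper35.MS Helper35.PI Helper35.PI2 Helper32.CL
open scoped ContDiff Manifold Topology ENNReal BigOperators
open MeasureTheory Set Filter

/-- Antitone from a nonpositive derivative on the time interval. -/
theorem anti_Ioo {a b : ℝ} {f f' : ℝ → ℝ} (h : ∀ t ∈ Ioo a b, HasDerivAt f (f' t) t)
    (h0 : ∀ t ∈ Ioo a b, f' t ≤ 0) : AntitoneOn f (Ioo a b) := by
  apply antitoneOn_of_deriv_nonpos (convex_Ioo a b)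
  · intro t ht
    exact (h t ht).continuousAt.continuousWithinAt
  · rw [interior_Ioo]
    intro t ht
    exact (h t ht).differentiableAt.differentiableWithinAt
  · rw [interior_Ioo]
    intro t ht
    rw [(h t ht).deriv]
    exact h0 t ht

theorem hIN1 (hENE : StENE) (hMUJ : StMUJ) : StIN1 := by
  intro N M _ _ _ _ _ _ _ F c χ δ hD hY4
  obtain ⟨-, su, pi, gb⟩ := hD
  obtain ⟨sF, -, hmu⟩ := hMUJ 2 N M (Ioo 0 (1 / 4)) F c χ su.toJ
  have hE := hENE N M (Ioo 0 (1 / 4)) F c χ su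
  have hτ : ∀ t ∈ Ioo (0 : ℝ) (1 / 4), 0 < 1 / 4 - t := fun t ht => by linarith [ht.2]
  have hYτ : ∀ q, ∀ t ∈ Ioo (0 : ℝ) (1 / 4), 1 / (1 / 4 - t) ≤ YF F q t := by
    intro q t ht
    refine le_trans (le_of_eq ?_) (hY4 q t ht)
    have := hτ t ht
    rw [div_eq_div_iff (by linarith) (by linarith)]
    ring
  have hYc : ∀ t ∈ Ioo (0 : ℝ) (1 / 4), Continuous (fun q => YF F q t) := fun t ht =>
    (pi.eY.sm t ht).continuous
  have hθc : ∀ t ∈ Ioo (0 : ℝ) (1 / 4), Continuous (fun q => thF 2 F q t) := fun t ht =>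
    (pi.eth.sm t ht).continuous
  have hint : ∀ t ∈ Ioo (0 : ℝ) (1 / 4), ∀ g : M → ℝ, Continuous g → Integrable g (muM 2 F c χ t) :=
    fun t ht g hg => ((hmu t ht).2.2 g hg).1
  have hconst : ∀ t ∈ Ioo (0 : ℝ) (1 / 4), ∀ a : ℝ, ∫ _, a ∂muM 2 F c χ t = arI F c χ t * a := by
    intro t _ a
    rw [integral_const, smul_eq_mul]
    rfl
  have hA0 : ∀ t, 0 ≤ arI F c χ t := fun t => measureReal_nonneg
  have he0 : ∀ t ∈ Ioo (0 : ℝ) (1 / 4), 0 ≤ eI F c χ t := fun t ht =>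
    integral_nonneg fun q => pi.th0 q t ht
  have hd0 : ∀ t ∈ Ioo (0 : ℝ) (1 / 4), 0 ≤ dI F c χ t := fun t ht =>
    integral_nonneg fun q => pi.g0 q t ht
  have hAW : ∀ t ∈ Ioo (0 : ℝ) (1 / 4), arI F c χ t ≤ wI F c χ t * (1 / 4 - t) := by
    intro t ht
    have h1 : ∫ _, 1 / (1 / 4 - t) ∂muM 2 F c χ t ≤ ∫ q, YF F q t ∂muM 2 F c χ t :=
      integral_mono (hint t ht _ continuous_const) (hint t ht _ (hYc t ht)) fun q => hYτ q t ht
    rw [hconst t ht] at h1
    have h2 := hτ t ht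
    rw [mul_one_div, div_le_iff₀ h2] at h1
    exact h1
  have hde : ∀ t ∈ Ioo (0 : ℝ) (1 / 4), δ / (1 / 4 - t) * eI F c χ t ≤ dI F c χ t := by
    intro t ht
    have h2 := hτ t ht
    have h1 : ∫ q, δ / (1 / 4 - t) * thF 2 F q t ∂muM 2 F c χ t ≤ ∫ q, g3F F q t ∂muM 2 F c χ t := by
      refine integral_mono (hint t ht _ (continuous_const.mul (hθc t ht))) (hint t ht _ (hE t ht).1) fun q => ?_
      refine le_trans ?_ (pi.g1 q t ht)
      have h3 := hYτ q t ht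
      have h4 := pi.th0 q t ht
      have h5 := pi.δ0
      calc δ / (1 / 4 - t) * thF 2 F q t = δ * (1 / (1 / 4 - t) * thF 2 F q t) := by ring
        _ ≤ δ * (YF F q t * thF 2 F q t) := by gcongr
    rw [integral_const_mul] at h1
    exact h1
  have hWanti : AntitoneOn (wI F c χ) (Ioo 0 (1 / 4)) :=
    anti_Ioo (fun t ht => (hE t ht).2.2.1) fun t ht => by linarith [hd0 t ht]
  have hW16 : ∀ t ∈ Ioo (0 : ℝ) (1 / 4), 16 * Real.pi ≤ wI F c χ t := fun t ht => by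
    linarith [gb t ht, he0 t ht]
  -- area from below
  have hA16 : ∀ t ∈ Ioo (0 : ℝ) (1 / 4), 16 * Real.pi * (1 / 4 - t) ≤ arI F c χ t := by
    have hanti : AntitoneOn (fun t => arI F c χ t - 16 * Real.pi * (1 / 4 - t)) (Ioo 0 (1 / 4)) := by
      refine anti_Ioo (f' := fun t => -wI F c χ t - 16 * Real.pi * (-1)) (fun t ht => ?_) fun t ht => ?_
      · refine (hE t ht).2.2.2.sub ?_
        exact ((hasDerivAt_id t).const_sub (1 / 4)).const_mul (16 * Real.pi)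
      · have := hW16 t ht
        show -wI F c χ t - 16 * Real.pi * (-1) ≤ 0
        linarith
    intro t ht
    by_contra hcon
    push Not at hcon
    set m := 16 * Real.pi * (1 / 4 - t) - arI F c χ t with hm
    have hm0 : 0 < m := by rw [hm]; linarith
    have hpi := Real.pi_pos
    have hτt := hτ t ht
    obtain ⟨η, hη0, hη1, hη2⟩ : ∃ η : ℝ, 0 < η ∧ η < 1 / 4 - t ∧ 16 * Real.pi * η < m := by
      refine ⟨min ((1 / 4 - t) / 2) (m / (32 * Real.pi)), ?_, ?_, ?_⟩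
      · exact lt_min (by linarith) (by positivity)
      · exact lt_of_le_of_lt (min_le_left _ _) (by linarith)
      · refine lt_of_le_of_lt (mul_le_mul_of_nonneg_left (min_le_right _ _) (by positivity)) ?_
        rw [show 16 * Real.pi * (m / (32 * Real.pi)) = m / 2 by field_simp; ring]
        linarith
    have hs : (1 / 4 - η) ∈ Ioo (0 : ℝ) (1 / 4) := ⟨by linarith [ht.1], by linarith⟩
    have h1 := hanti ht hs (by linarith)
    simp only [sub_sub_cancel] at h1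
    linarith [hA0 (1 / 4 - η)]
  -- decay of the energy
  have hψ : AntitoneOn (fun t => eI F c χ t * (1 / 4 - t) ^ (-δ)) (Ioo 0 (1 / 4)) := by
    refine anti_Ioo (f' := fun t => -dI F c χ t * (1 / 4 - t) ^ (-δ) +
      eI F c χ t * ((-1) * (-δ) * (1 / 4 - t) ^ (-δ - 1))) (fun t ht => ?_) fun t ht => ?_
    · refine (hE t ht).2.1.mul ?_
      exact ((hasDerivAt_id t).const_sub (1 / 4)).rpow_const (Or.inl (hτ t ht).ne')
    · have h1 := hde t ht
      have h2 := hτ t ht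
      have h3 : (1 / 4 - t) ^ (-δ - 1) = (1 / 4 - t) ^ (-δ) / (1 / 4 - t) := by
        rw [Real.rpow_sub_one h2.ne']
      have h4 : 0 < (1 / 4 - t) ^ (-δ) := Real.rpow_pos_of_pos h2 _
      show -dI F c χ t * (1 / 4 - t) ^ (-δ) + eI F c χ t * ((-1) * (-δ) * (1 / 4 - t) ^ (-δ - 1)) ≤ 0
      rw [h3]
      have h5 : -dI F c χ t * (1 / 4 - t) ^ (-δ) +
          eI F c χ t * ((-1) * (-δ) * ((1 / 4 - t) ^ (-δ) / (1 / 4 - t))) =
          (1 / 4 - t) ^ (-δ) * (δ / (1 / 4 - t) * eI F c χ t - dI F c χ t) := by ring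
      rw [h5]
      exact mul_nonpos_of_nonneg_of_nonpos h4.le (by linarith)
  have h8 : (1 / 8 : ℝ) ∈ Ioo (0 : ℝ) (1 / 4) := by constructor <;> norm_num
  have hC1 : 0 ≤ eI F c χ (1 / 8) * (1 / 4 - 1 / 8) ^ (-δ) :=
    mul_nonneg (he0 _ h8) (Real.rpow_nonneg (by norm_num) _)
  have hw8 : 0 ≤ wI F c χ (1 / 8) := le_trans (by positivity) (hW16 _ h8)
  refine ⟨eI F c χ (1 / 8) * (1 / 4 - 1 / 8) ^ (-δ) + wI F c χ (1 / 8) + 1, by linarith, ?_⟩
  intro t ht
  have htJ : t ∈ Ioo (0 : ℝ) (1 / 4) := ⟨by linarith [ht.1], ht.2⟩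
  have h2 := hτ t htJ
  refine ⟨?_, ?_, hA16 t htJ, hAW t htJ, ?_⟩
  · have h3 := hψ h8 htJ ht.1
    have h4 : 0 < (1 / 4 - t) ^ δ := Real.rpow_pos_of_pos h2 _
    have h5 : (1 / 4 - t) ^ (-δ) * (1 / 4 - t) ^ δ = 1 := by
      rw [← Real.rpow_add h2]
      simp
    calc eI F c χ t = eI F c χ t * (1 / 4 - t) ^ (-δ) * (1 / 4 - t) ^ δ := by rw [mul_assoc, h5, mul_one]
      _ ≤ (eI F c χ (1 / 8) * (1 / 4 - 1 / 8) ^ (-δ)) * (1 / 4 - t) ^ δ :=
        mul_le_mul_of_nonneg_right h3 h4.le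
      _ ≤ _ := mul_le_mul_of_nonneg_right (by linarith) h4.le
  · have := hWanti h8 htJ ht.1
    linarith
  · rw [integral_sub (hint t htJ _ (hYc t htJ)) (hint t htJ _ continuous_const), hconst t htJ]
    have h3 : 16 * Real.pi ≤ arI F c χ t * (1 / (1 / 4 - t)) := by
      rw [mul_one_div, le_div_iff₀ h2]
      exact hA16 t htJ
    have h4 := gb t htJ
    change wI F c χ t - _ ≤ _
    linarith

end Helper31.MS
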