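import Pool.Agent.Helper35.MS.StF

set_option autoImplicit false

namespace Helper31.MS

open Helper35.MS Helper35.PI Helper35.PI2 Helper32.CL
open scoped ContDiff Manifold Topology ENNReal BigOperators
open MeasureTheory Set Filter

theorem sqrt_lip {y a k : ℝ} (ha : 0 ≤ a) (hay : a ≤ y) (hk : 0 < k) :
    Real.sqrt (y ^ 2 + k ^ 2) - k ≤ a ^ 2 / (2 * k) + (y - a) := by
  have h1 : Real.sqrt (a ^ 2 + k ^ 2) ≤ k + a ^ 2 / (2 * k) := by
    rw [Real.sqrt_le_left (by positivity)]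
    have : (k + a ^ 2 / (2 * k)) ^ 2 = k ^ 2 + a ^ 2 + (a ^ 2 / (2 * k)) ^ 2 := by
      field_simp
      ring
    rw [this]
    nlinarith [sq_nonneg (a ^ 2 / (2 * k))]
  have h2 : Real.sqrt (y ^ 2 + k ^ 2) ≤ Real.sqrt (a ^ 2 + k ^ 2) + (y - a) := by
    rw [Real.sqrt_le_left (by positivity [Real.sqrt_nonneg (a ^ 2 + k ^ 2)])]
    have h3 := Real.sq_sqrt (show (0 : ℝ) ≤ a ^ 2 + k ^ 2 by positivity)
    have h4 : a ≤ Real.sqrt (a ^ 2 + k ^ 2) := by
      rw [Real.le_sqrt ha (by positivity)]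
      nlinarith
    nlinarith [mul_le_mul_of_nonneg_right h4 (sub_nonneg.2 hay)]
  linarith

theorem hIN2 (hIN1 : StIN1) (hTI : StTI) (hMUJ : StMUJ) : StIN2 := by
  intro N M _ _ _ _ _ _ _ F c χ δ hD hY4
  obtain ⟨c0, hc0, h1⟩ := hIN1 N M F c χ δ hD hY4
  obtain ⟨-, su, pi, gb⟩ := hD
  obtain ⟨sF, -, hmu⟩ := hMUJ 2 N M (Ioo 0 (1 / 4)) F c χ su.toJ
  have hδ := pi.δ0
  have hint : ∀ t ∈ Ioo (0 : ℝ) (1 / 4), ∀ g : M → ℝ, Continuous g → Integrable g (muM 2 F c χ t) :=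
    fun t ht g hg => ((hmu t ht).2.2 g hg).1
  have hYc : ∀ t ∈ Ioo (0 : ℝ) (1 / 4), Continuous (fun q => YF F q t) := fun t ht =>
    (pi.eY.sm t ht).continuous
  -- the time from which the energy is small
  obtain ⟨τ1, hτ10, hτ18, hτ1⟩ : ∃ τ1 : ℝ, 0 < τ1 ∧ τ1 ≤ 1 / 8 ∧
      ∀ τ : ℝ, 0 < τ → τ ≤ τ1 → c0 * τ ^ δ ≤ min (3 / 800) (δ / 400) := by
    have hm : 0 < min (3 / 800 : ℝ) (δ / 400) := lt_min (by norm_num) (by positivity)
    refine ⟨min (1 / 8) ((min (3 / 800) (δ / 400) / c0) ^ (1 / δ)), ?_, min_le_left _ _, ?_⟩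
    · exact lt_min (by norm_num) (Real.rpow_pos_of_pos (by positivity) _)
    · intro τ hτ0 hτ
      have h2 : τ ^ δ ≤ ((min (3 / 800) (δ / 400) / c0) ^ (1 / δ)) ^ δ :=
        Real.rpow_le_rpow hτ0.le (hτ.trans (min_le_right _ _)) hδ.le
      rw [← Real.rpow_mul (by positivity), one_div_mul_cancel hδ.ne', Real.rpow_one] at h2
      calc c0 * τ ^ δ ≤ c0 * (min (3 / 800) (δ / 400) / c0) := by gcongr
        _ = min (3 / 800) (δ / 400) := by field_simp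
  obtain ⟨a, ha0, ha2, haK⟩ : ∃ a : ℝ, 0 < a ∧ a ≤ 1 / 2 ∧ 400 * c0 * c0 * a ≤ 1 / 400 := by
    refine ⟨min (1 / 2) (1 / (400 * (400 * c0 * c0))), ?_, min_le_left _ _, ?_⟩
    · exact lt_min (by norm_num) (by positivity)
    · calc 400 * c0 * c0 * min (1 / 2) (1 / (400 * (400 * c0 * c0)))
          ≤ 400 * c0 * c0 * (1 / (400 * (400 * c0 * c0))) := by
            gcongr
            exact min_le_right _ _
        _ = 1 / 400 := by field_simp
  refine ⟨1 / a, 1 / 4 - (1 - a) * τ1, by positivity, ⟨?_, ?_⟩, ?_⟩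
  · nlinarith
  · nlinarith [mul_pos (by linarith : 0 < 1 - a) hτ10]
  intro t0 ht0 q
  have h1a : 0 < 1 - a := by linarith
  set τ0 := 1 / 4 - t0 with hτ0
  have hτ0p : 0 < τ0 := by rw [hτ0]; linarith [ht0.2]
  have hτ0le : τ0 ≤ (1 - a) * τ1 := by rw [hτ0]; linarith [ht0.1]
  set τ' := τ0 / (1 - a) with hτ'
  have hτ'0 : 0 < τ' := by positivity
  have hτ'1 : τ' ≤ τ1 := by
    rw [hτ', div_le_iff₀ h1a]
    linarith
  have hτ'e : τ0 = (1 - a) * τ' := by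
    rw [hτ']
    field_simp
  have ht'm : (1 / 4 - τ') ∈ Ico (1 / 8 : ℝ) (1 / 4) := ⟨by linarith, by linarith⟩
  have ht'J : (1 / 4 - τ') ∈ Ioo (0 : ℝ) (1 / 4) := ⟨by linarith, by linarith⟩
  obtain ⟨e1, e2, -, e4, e5⟩ := h1 _ ht'm
  simp only [sub_sub_cancel] at e1 e4 e5
  have he := hτ1 τ' hτ'0 hτ'1
  have he1 : eI F c χ (1 / 4 - τ') ≤ 3 / 800 := e1.trans (he.trans (min_le_left _ _))
  have he2 : eI F c χ (1 / 4 - τ') ≤ δ / 400 := e1.trans (he.trans (min_le_right _ _))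
  have hk : 0 < 400 * c0 / τ' := by positivity
  have hz : zI (400 * c0 / τ') F c χ (1 / 4 - τ') ≤ 1 / 200 := by
    have hYb : ∀ q, 1 / τ' ≤ YF F q (1 / 4 - τ') := by
      intro q
      refine le_trans (le_of_eq ?_) (hY4 q _ ht'J)
      rw [div_eq_div_iff (by positivity) (by linarith)]
      ring
    have hb : ∫ q, (Real.sqrt (YF F q (1 / 4 - τ') ^ 2 + (400 * c0 / τ') ^ 2) - 400 * c0 / τ')
          ∂muM 2 F c χ (1 / 4 - τ') ≤
        ∫ q, ((1 / τ') ^ 2 / (2 * (400 * c0 / τ')) + (YF F q (1 / 4 - τ') - 1 / τ'))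
          ∂muM 2 F c χ (1 / 4 - τ') := by
      refine integral_mono (hint _ ht'J _ ?_) (hint _ ht'J _ ?_) fun q => ?_
      · exact (((hYc _ ht'J).pow 2).add continuous_const).sqrt.sub continuous_const
      · exact continuous_const.add ((hYc _ ht'J).sub continuous_const)
      · exact sqrt_lip (by positivity) (hYb q) hk
    have hc : ∫ q, ((1 / τ') ^ 2 / (2 * (400 * c0 / τ')) + (YF F q (1 / 4 - τ') - 1 / τ'))
          ∂muM 2 F c χ (1 / 4 - τ') =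
        arI F c χ (1 / 4 - τ') * ((1 / τ') ^ 2 / (2 * (400 * c0 / τ'))) +
          ∫ q, (YF F q (1 / 4 - τ') - 1 / τ') ∂muM 2 F c χ (1 / 4 - τ') := by
      rw [integral_add (f := fun _ => (1 / τ') ^ 2 / (2 * (400 * c0 / τ')))
        (g := fun q => YF F q (1 / 4 - τ') - 1 / τ') (hint _ ht'J _ continuous_const)
        (hint _ ht'J _ ((hYc _ ht'J).sub continuous_const)), integral_const, smul_eq_mul]
      rfl
    rw [hc] at hb
    have hd : arI F c χ (1 / 4 - τ') * ((1 / τ') ^ 2 / (2 * (400 * c0 / τ'))) ≤ 1 / 800 := by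
      have h2 : arI F c χ (1 / 4 - τ') ≤ c0 * τ' := e4.trans (by gcongr)
      calc arI F c χ (1 / 4 - τ') * ((1 / τ') ^ 2 / (2 * (400 * c0 / τ')))
          ≤ (c0 * τ') * ((1 / τ') ^ 2 / (2 * (400 * c0 / τ'))) := by gcongr
        _ = 1 / 800 := by
          field_simp
          norm_num
    change ∫ q, (Real.sqrt (YF F q (1 / 4 - τ') ^ 2 + (400 * c0 / τ') ^ 2) - 400 * c0 / τ')
          ∂muM 2 F c χ (1 / 4 - τ') ≤ 1 / 200
    linarith
  have ht'0 : 1 / 4 - τ' < t0 := by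
    have : τ0 < τ' := by
      rw [hτ'e]
      nlinarith
    rw [hτ0] at this
    linarith
  have hdiff : t0 - (1 / 4 - τ') = a * τ' := by
    have : t0 = 1 / 4 - (1 - a) * τ' := by
      rw [← hτ'e, hτ0]
      ring
    rw [this]
    ring
  have hfin := hTI N M (Ioo 0 (1 / 4)) F c χ δ su pi (400 * c0 / τ') (1 / 4 - τ') t0 hk ht'0
    (fun s hs => ⟨by linarith [hs.1, ht'J.1], by linarith [hs.2, ht0.2]⟩) hz he2 (by
      rw [hdiff]
      calc 400 * c0 / τ' * wI F c χ (1 / 4 - τ') * (a * τ')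
          = 400 * c0 * wI F c χ (1 / 4 - τ') * a := by field_simp
        _ ≤ 400 * c0 * c0 * a := by gcongr
        _ ≤ 1 / 400 := haK) q
  rw [hdiff] at hfin
  rw [hτ'e, le_div_iff₀ ha0]
  have hYn : 0 ≤ YF F q t0 := by
    unfold YF
    positivity
  nlinarith [mul_nonneg (mul_nonneg ha0.le hτ'0.le) hYn, mul_nonneg ha0.le (mul_nonneg (mul_nonneg ha0.le hτ'0.le) hYn)]

end Helper31.MS
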