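import Pool.Agent.Helper35.MS.StK

/-!
# Project MS (MP_925021_gt), module LMK: the rescaled flow converges
-/

set_option autoImplicit false

namespace Helper31.MS

open Helper35.MS Helper35.PI Helper35.PI2 Helper32.CL
open scoped ContDiff Manifold Topology ENNReal BigOperators
open MeasureTheory Set Filter

/-- minus the remaining distance -/
private noncomputable def GaL (T K α s : ℝ) : ℝ := -(K / α) * (T - s) ^ (α / 2)

private lemma GaL_deriv (T K α s : ℝ) (hα : 0 < α) (hs : s < T) :
    HasDerivAt (GaL T K α) (K / 2 * (T - s) ^ (α / 2 - 1)) s := by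
  have h0 : 0 < T - s := by linarith
  have h1 : HasDerivAt (fun s : ℝ => T - s) (-1) s := by
    simpa using (hasDerivAt_id s).const_sub T
  have h3 : HasDerivAt (fun s : ℝ => (T - s) ^ (α / 2))
      (-1 * (α / 2) * (T - s) ^ (α / 2 - 1)) s := h1.rpow_const (Or.inl h0.ne')
  have h4 := h3.const_mul (-(K / α))
  have e : -(K / α) * (-1 * (α / 2) * (T - s) ^ (α / 2 - 1)) =
      K / 2 * (T - s) ^ (α / 2 - 1) := by
    field_simp
  rw [e] at h4
  exact h4

private lemma a_deriv (T s : ℝ) (hs : s < T) :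
    HasDerivAt (fun s : ℝ => 1 / (2 * Real.sqrt (T - s)))
      (1 / (2 * Real.sqrt (T - s)) * (1 / (2 * (T - s)))) s := by
  have h0 : 0 < T - s := by linarith
  have h1 : HasDerivAt (fun s : ℝ => T - s) (-1) s := by
    simpa using (hasDerivAt_id s).const_sub T
  have h2 : HasDerivAt (fun s : ℝ => Real.sqrt (T - s)) (-1 / (2 * Real.sqrt (T - s))) s :=
    h1.sqrt h0.ne'
  have hr : 0 < Real.sqrt (T - s) := Real.sqrt_pos.mpr h0
  have h3 := (h2.const_mul 2).inv (by positivity : (2 * Real.sqrt (T - s)) ≠ 0)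
  have hrr : Real.sqrt (T - s) ^ 2 = T - s := Real.sq_sqrt h0.le
  have e : -(2 * (-1 / (2 * Real.sqrt (T - s)))) / (2 * Real.sqrt (T - s)) ^ 2 =
      1 / (2 * Real.sqrt (T - s)) * (1 / (2 * (T - s))) := by
    rw [mul_pow, hrr]
    field_simp
  rw [e] at h3
  have e2 : (fun s : ℝ => 1 / (2 * Real.sqrt (T - s))) =
      (fun s : ℝ => 2 * Real.sqrt (T - s))⁻¹ := by
    funext s
    simp
  rw [e2]
  exact h3

private lemma speedK (C α τ h : ℝ) (hC : 0 < C) (hτ : 0 < τ) (hh : 0 ≤ h)
    (hu : τ * h ^ 2 ≤ C * τ ^ α) :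
    1 / (2 * Real.sqrt τ) * h ≤ Real.sqrt C / 2 * τ ^ (α / 2 - 1) := by
  have hr : 0 < Real.sqrt τ := Real.sqrt_pos.mpr hτ
  have hrr : Real.sqrt τ ^ 2 = τ := Real.sq_sqrt hτ.le
  have hCC : Real.sqrt C ^ 2 = C := Real.sq_sqrt hC.le
  have hp : 0 < τ ^ (α / 2 - 1) := Real.rpow_pos_of_pos hτ _
  have hpp : (τ ^ (α / 2 - 1)) ^ 2 = τ ^ α / τ ^ 2 := by
    rw [← Real.rpow_natCast, ← Real.rpow_mul hτ.le]
    have : (α / 2 - 1) * ((2 : ℕ) : ℝ) = α - 2 := by push_cast; ring
    rw [this, Real.rpow_sub hτ]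
    norm_num
  refine (pow_le_pow_iff_left₀ (by positivity) (by positivity) (two_ne_zero)).mp ?_
  rw [mul_pow, mul_pow, div_pow, div_pow, mul_pow, hrr, hCC, hpp]
  rw [div_mul_eq_mul_div, one_pow, one_mul, div_mul_div_comm, div_le_div_iff₀ (by positivity)
    (by positivity)]
  have h1 := mul_le_mul_of_nonneg_left hu (by positivity : 0 ≤ 4 * τ)
  nlinarith [h1]

/-- LMK. The rescaled flow converges. -/
theorem hLMK : StLMK := by
  intro N M _ _ _ T F hF C α ts hC hα hts hyp
  have hJ : ∀ t ∈ Ico ts T, t ∈ Ioo 0 T := fun t ht => ⟨hts.1.trans_le ht.1, ht.2⟩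
  set K := Real.sqrt C with hK
  have hK0 : 0 < K := Real.sqrt_pos.mpr hC
  set Φ : M → ℝ → EE N := fun q t => (1 / (2 * Real.sqrt (T - t))) • F q t with hΦ
  have hder : ∀ q : M, ∀ t ∈ Ico ts T, HasDerivAt (fun t => Φ q t)
      ((1 / (2 * Real.sqrt (T - t))) • (HH (n := 2) F q t + (1 / (2 * (T - t))) • F q t)) t := by
    intro q t ht
    have h1 := (a_deriv T t ht.2).smul (hF.flow q t (hJ t ht))
    have e : (1 / (2 * Real.sqrt (T - t))) • (HH (n := 2) F q t + (1 / (2 * (T - t))) • F q t) =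
        (1 / (2 * Real.sqrt (T - t))) • HH (n := 2) F q t +
        (1 / (2 * Real.sqrt (T - t)) * (1 / (2 * (T - t)))) • F q t := by
      rw [smul_add, smul_smul]
    rw [e]
    exact h1
  -- distance along the flow
  have hdist : ∀ q : M, ∀ t s : ℝ, ts ≤ t → t ≤ s → s < T →
      ‖Φ q s - Φ q t‖ ≤ GaL T K α s - GaL T K α t := by
    intro q t s h1 h2 h3
    have hin : ∀ x ∈ Icc t s, x ∈ Ico ts T := fun x hx => ⟨h1.trans hx.1, hx.2.trans_lt h3⟩
    have key := image_norm_le_of_norm_deriv_right_le_deriv_boundary'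
      (f := fun x => Φ q x - Φ q t)
      (f' := fun x => (1 / (2 * Real.sqrt (T - x))) •
        (HH (n := 2) F q x + (1 / (2 * (T - x))) • F q x)) (a := t) (b := s)
      (B := fun x => GaL T K α x - GaL T K α t)
      (B' := fun x => K / 2 * (T - x) ^ (α / 2 - 1))
      (fun x hx => (((hder q x (hin x hx)).sub_const
        (Φ q t)).continuousAt).continuousWithinAt)
      (fun x hx => (((hder q x (hin x (Ico_subset_Icc_self hx))).sub_const
        (Φ q t)).hasDerivWithinAt))
      (by simp)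
      (fun x hx => (((GaL_deriv T K α x hα (hin x hx).2).sub_const
        (GaL T K α t)).continuousAt).continuousWithinAt)
      (fun x hx => ((GaL_deriv T K α x hα (hin x (Ico_subset_Icc_self hx)).2).sub_const
        (GaL T K α t)).hasDerivWithinAt)
      (fun x hx => by
        have hx' := hin x (Ico_subset_Icc_self hx)
        have hx2 : 0 < T - x := by linarith [hx'.2]
        have hr : 0 < Real.sqrt (T - x) := Real.sqrt_pos.mpr hx2
        rw [norm_smul, Real.norm_eq_abs, abs_of_pos (by positivity)]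
        exact speedK C α (T - x) _ hC hx2 (norm_nonneg _) (hyp x hx' q))
    exact key ⟨h2, le_rfl⟩
  have hGneg : ∀ s, s < T → GaL T K α s ≤ 0 := by
    intro s hs
    have h0 : 0 < T - s := by linarith
    unfold GaL
    have h2 : 0 ≤ K / α * (T - s) ^ (α / 2) := by positivity
    linarith
  -- the sequence of times
  set u : ℕ → ℝ := fun n => T - (T - ts) / ((n : ℝ) + 1) with hu
  have hTts : 0 < T - ts := by linarith [hts.2]
  have hu1 : ∀ n, ts ≤ u n := by
    intro n
    have hn : (0 : ℝ) < (n : ℝ) + 1 := by positivity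
    have : (T - ts) / ((n : ℝ) + 1) ≤ T - ts := by
      rw [div_le_iff₀ hn]
      nlinarith [Nat.cast_nonneg (α := ℝ) n]
    simp only [hu]
    linarith
  have hu2 : ∀ n, u n < T := by
    intro n
    have : 0 < (T - ts) / ((n : ℝ) + 1) := by positivity
    simp only [hu]
    linarith
  have hu3 : ∀ n m, n ≤ m → u n ≤ u m := by
    intro n m h
    simp only [hu]
    have : (T - ts) / ((m : ℝ) + 1) ≤ (T - ts) / ((n : ℝ) + 1) := by
      apply div_le_div_of_nonneg_left hTts.le (by positivity)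
      have : (n : ℝ) ≤ m := by exact_mod_cast h
      linarith
    linarith
  have hu4 : Tendsto (fun n => T - u n) atTop (𝓝 0) := by
    have h1 : (fun n => T - u n) = fun n : ℕ => (T - ts) * (1 / ((n : ℝ) + 1)) := by
      funext n
      simp only [hu]
      ring
    rw [h1]
    have := tendsto_one_div_add_atTop_nhds_zero_nat (𝕜 := ℝ) |>.const_mul (T - ts)
    rwa [mul_zero] at this
  have hG0 : Tendsto (fun n => GaL T K α (u n)) atTop (𝓝 0) := by
    unfold GaL
    have h2 : Tendsto (fun n => (T - u n) ^ (α / 2)) atTop (𝓝 0) := by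
      have h3 : 0 < α / 2 := by positivity
      have := ((Real.continuous_rpow_const h3.le).tendsto 0).comp hu4
      rwa [Real.zero_rpow h3.ne'] at this
    have := h2.const_mul (-(K / α))
    rwa [mul_zero] at this
  -- the limit
  have hcau : ∀ q : M, CauchySeq (fun n => Φ q (u n)) := by
    intro q
    refine cauchySeq_of_le_tendsto_0 (fun n => 2 * (-GaL T K α (u n))) ?_ ?_
    · intro n m k hn hm
      have h1 := hdist q (u k) (u n) (hu1 k) (hu3 k n hn) (hu2 n)
      have h2 := hdist q (u k) (u m) (hu1 k) (hu3 k m hm) (hu2 m)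
      have h3 := hGneg (u n) (hu2 n)
      have h4 := hGneg (u m) (hu2 m)
      have h5 : dist (Φ q (u n)) (Φ q (u m)) ≤
          ‖Φ q (u n) - Φ q (u k)‖ + ‖Φ q (u m) - Φ q (u k)‖ := by
        rw [← dist_eq_norm, ← dist_eq_norm]
        exact dist_triangle_right _ _ _
      linarith
    · have := hG0.neg.const_mul 2
      simpa using this
  choose G hG using fun q => cauchySeq_tendsto_of_complete (hcau q)
  have hest : ∀ t ∈ Ico ts T, ∀ q, ‖Φ q t - G q‖ ≤ K / α * (T - t) ^ (α / 2) := by
    intro t ht q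
    have hlim : Tendsto (fun n => ‖Φ q t - Φ q (u n)‖) atTop (𝓝 ‖Φ q t - G q‖) :=
      ((hG q).const_sub _).norm
    refine le_of_tendsto hlim ?_
    have h0 : ∀ᶠ n in atTop, T - u n < T - t := hu4.eventually (gt_mem_nhds (by linarith [ht.2]))
    filter_upwards [h0] with n hn
    have h1 := hdist q t (u n) ht.1 (by linarith) (hu2 n)
    have h2 := hGneg (u n) (hu2 n)
    rw [norm_sub_rev]
    have h3 : -GaL T K α t = K / α * (T - t) ^ (α / 2) := by
      unfold GaL
      ring
    rw [← h3]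
    linarith
  have hcF : ∀ t ∈ Ioo 0 T, Continuous (fun q => F q t) := by
    intro t ht
    have h1 : ContinuousOn (fun z : M × ℝ => F z.1 z.2) (univ ×ˢ Ioo 0 T) :=
      hF.smooth.continuousOn
    have h2 : Continuous (fun q : M => ((q, t) : M × ℝ)) := by fun_prop
    exact h1.comp_continuous h2 (fun q => ⟨mem_univ _, ht⟩)
  refine ⟨G, K / α, ?_, by positivity, hest⟩
  -- continuity: uniform limit
  have hunif : TendstoUniformly (fun n q => Φ q (u n)) G atTop := by
    rw [Metric.tendstoUniformly_iff]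
    intro ε hε
    have h1 : ∀ᶠ n in atTop, -GaL T K α (u n) < ε := by
      have := hG0.neg
      rw [neg_zero] at this
      exact this.eventually (gt_mem_nhds hε)
    filter_upwards [h1] with n hn q
    rw [dist_comm, dist_eq_norm]
    refine lt_of_le_of_lt (hest (u n) ⟨hu1 n, hu2 n⟩ q) ?_
    have h3 : -GaL T K α (u n) = K / α * (T - u n) ^ (α / 2) := by
      unfold GaL
      ring
    rw [← h3]
    exact hn
  refine hunif.continuous (Eventually.frequently (Eventually.of_forall ?_))
  intro n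
  exact (hcF (u n) (hJ _ ⟨hu1 n, hu2 n⟩)).const_smul (1 / (2 * Real.sqrt (T - u n)) : ℝ)

end Helper31.MS
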